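import Pool.Agent.Q224.Rk.Gen

namespace Pool.Agent.Q224.Rk

open Finset Pool.Agent.Q224.Nu

lemma mul_odd_iff (a i : ℕ) : (a * i) % 2 = 1 ↔ a % 2 = 1 ∧ i % 2 = 1 := by
  rw [← Nat.odd_iff, ← Nat.odd_iff, ← Nat.odd_iff, Nat.odd_mul]

lemma mul_even_even {a i : ℕ} (h1 : a % 2 = 0) (h2 : i % 2 = 0) : (a * i) % 4 = 0 := by
  obtain ⟨x, rfl⟩ : ∃ x, a = 2 * x := ⟨a / 2, by omega⟩
  obtain ⟨y, rfl⟩ : ∃ y, i = 2 * y := ⟨i / 2, by omega⟩
  have : 2 * x * (2 * y) = 4 * (x * y) := by ring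
  omega

lemma par4 {a i b j u : ℕ} (hu : u % 2 = 1) (h : a * i + b * j = 2 * u) :
    ¬ (a % 2 = 0 ∧ i % 2 = 0 ∧ b % 2 = 0 ∧ j % 2 = 0) ∧
      ((a % 2 = 1 ∧ i % 2 = 1) ↔ (b % 2 = 1 ∧ j % 2 = 1)) := by
  refine ⟨?_, ?_⟩
  · rintro ⟨h1, h2, h3, h4⟩
    have e1 := mul_even_even h1 h2
    have e2 := mul_even_even h3 h4
    omega
  · rw [← mul_odd_iff, ← mul_odd_iff]
    omega

/-- parity type -/
def ty (p q r s : ℕ) (t : ℕ × ℕ × ℕ × ℕ) : Prop :=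
  t.1 % 2 = p ∧ t.2.1 % 2 = q ∧ t.2.2.1 % 2 = r ∧ t.2.2.2 % 2 = s

instance (p q r s : ℕ) (t : ℕ × ℕ × ℕ × ℕ) : Decidable (ty p q r s t) := by
  unfold ty; infer_instance

/-- number of solutions with `b < a` of the given parity type -/
def c (u p q r s : ℕ) : ℕ := ((N2 (2 * u)).filter (fun t => ty p q r s t)).card

def conj2 (t : ℕ × ℕ × ℕ × ℕ) : ℕ × ℕ × ℕ × ℕ :=
  (t.2.1 + t.2.2.2, t.2.2.1, t.2.1, t.1 - t.2.2.1)

lemma conj2_mem {m : ℕ} : ∀ t ∈ N2 m, conj2 t ∈ N2 m := by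
  rintro ⟨a, i, b, j⟩ h
  rw [mem_N2] at h
  obtain ⟨h1, h2, h3, h4, h5⟩ := h
  show (i + j, b, i, a - b) ∈ N2 m
  rw [mem_N2]
  obtain ⟨d, rfl⟩ : ∃ d, a = b + d := ⟨a - b, by omega⟩
  have e : b + d - b = d := by omega
  rw [e]
  refine ⟨h3, by omega, h1, by omega, ?_⟩
  rw [← h5]; ring

lemma conj2_conj2 {m : ℕ} : ∀ t ∈ N2 m, conj2 (conj2 t) = t := by
  rintro ⟨a, i, b, j⟩ h
  rw [mem_N2] at h
  obtain ⟨h1, h2, h3, h4, h5⟩ := h
  show (b + (a - b), i, b, i + j - i) = (a, i, b, j)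
  simp only [Prod.mk.injEq, true_and]
  omega

lemma c_conj1 (u : ℕ) : c u 0 0 1 0 = c u 0 1 0 1 := by
  refine card_filter_invol _ conj2 conj2_mem conj2_conj2 _ _ ?_
  rintro ⟨a, i, b, j⟩ h
  rw [mem_N2] at h
  obtain ⟨h1, h2, h3, h4, h5⟩ := h
  show (a % 2 = 0 ∧ i % 2 = 0 ∧ b % 2 = 1 ∧ j % 2 = 0) ↔
    ((i + j) % 2 = 0 ∧ b % 2 = 1 ∧ i % 2 = 0 ∧ (a - b) % 2 = 1)
  omega

lemma c_conj2 (u : ℕ) : c u 0 1 0 0 = c u 1 0 1 0 := by
  refine card_filter_invol _ conj2 conj2_mem conj2_conj2 _ _ ?_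
  rintro ⟨a, i, b, j⟩ h
  rw [mem_N2] at h
  obtain ⟨h1, h2, h3, h4, h5⟩ := h
  show (a % 2 = 0 ∧ i % 2 = 1 ∧ b % 2 = 0 ∧ j % 2 = 0) ↔
    ((i + j) % 2 = 1 ∧ b % 2 = 0 ∧ i % 2 = 1 ∧ (a - b) % 2 = 0)
  omega

/-- `S = #{a i + b j = u : a, j odd}` -/
def S (u : ℕ) : ℕ := ((Q u).filter (fun t => t.1 % 2 = 1 ∧ t.2.2.2 % 2 = 1)).card

lemma S_eq1 (u : ℕ) : S u = ((Q u).filter (fun t => t.2.1 % 2 = 1 ∧ t.2.2.2 % 2 = 1)).card :=
  card_filter_invol _ s1 s1_mem (fun _ _ => rfl) _ _ (fun _ _ => Iff.rfl)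

lemma S_eq2 (u : ℕ) : S u = ((Q u).filter (fun t => t.1 % 2 = 1 ∧ t.2.2.1 % 2 = 1)).card :=
  card_filter_invol _ s2 s2_mem (fun _ _ => rfl) _ _ (fun _ _ => Iff.rfl)

/-- `2 γ = S` -/
lemma gamma_S {u : ℕ} (hu : u % 2 = 1) : 2 * c u 0 1 0 1 = S u := by
  rw [S_eq1]
  set T := (Q u).filter (fun t => t.2.1 % 2 = 1 ∧ t.2.2.2 % 2 = 1) with hT
  have h1 := split_lt T (fun t => t.1) (fun t => t.2.2.1)
  have t3 : ∀ t ∈ T, s3 t ∈ T := by
    intro t ht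
    rw [hT, mem_filter] at ht ⊢
    exact ⟨s3_mem t ht.1, ht.2.2, ht.2.1⟩
  have h2 : (T.filter (fun t => t.1 < t.2.2.1)).card = (T.filter (fun t => t.2.2.1 < t.1)).card :=
    card_filter_invol _ s3 t3 (fun _ _ => rfl) _ _ (fun _ _ => Iff.rfl)
  have h3 : T.filter (fun t => t.1 = t.2.2.1) = ∅ := by
    rw [Finset.filter_eq_empty_iff]
    rintro ⟨a, i, b, j⟩ h he
    rw [hT, mem_filter, mem_Q] at h
    obtain ⟨⟨g1, g2, g3, g4, g5⟩, g6, g7⟩ := h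
    simp only at g6 g7 he
    subst he
    have e1 : a * (i + j) = u := by rw [← g5]; ring
    have e2 : (a * (i + j)) % 2 = 1 := by rw [e1]; exact hu
    rw [mul_odd_iff] at e2
    omega
  have h4 : (T.filter (fun t => t.2.2.1 < t.1)).card = c u 0 1 0 1 := by
    refine Finset.card_bij (fun t _ => (2 * t.1, t.2.1, 2 * t.2.2.1, t.2.2.2)) ?_ ?_ ?_
    · rintro ⟨a, i, b, j⟩ h
      rw [mem_filter, hT, mem_filter, mem_Q] at h
      obtain ⟨⟨⟨g1, g2, g3, g4, g5⟩, g6, g7⟩, g8⟩ := h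
      simp only at g6 g7 g8
      show (2 * a, i, 2 * b, j) ∈ _
      rw [mem_filter, mem_N2]
      refine ⟨⟨by omega, by omega, g2, g4, by rw [← g5]; ring⟩, ?_⟩
      show (2 * a) % 2 = 0 ∧ i % 2 = 1 ∧ (2 * b) % 2 = 0 ∧ j % 2 = 1
      omega
    · rintro ⟨a, i, b, j⟩ _ ⟨a', i', b', j'⟩ _ he
      simp only [Prod.mk.injEq] at he ⊢
      omega
    · rintro ⟨a, i, b, j⟩ h
      rw [mem_filter, mem_N2] at h
      obtain ⟨⟨g1, g2, g3, g4, g5⟩, g6, g7, g8, g9⟩ := h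
      simp only at g6 g7 g8 g9
      obtain ⟨x, rfl⟩ : ∃ x, a = 2 * x := ⟨a / 2, by omega⟩
      obtain ⟨y, rfl⟩ : ∃ y, b = 2 * y := ⟨b / 2, by omega⟩
      refine ⟨(x, i, y, j), ?_, rfl⟩
      rw [mem_filter, hT, mem_filter, mem_Q]
      refine ⟨⟨⟨by omega, g3, by omega, g4, ?_⟩, g7, g9⟩, ?_⟩
      · have : 2 * x * i + 2 * y * j = 2 * (x * i + y * j) := by ring
        omega
      · show y < x
        omega
  rw [h3, Finset.card_empty] at h1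
  omega

/-- `2 β + σ = S + d` -/
lemma beta_S {u : ℕ} (hu : u % 2 = 1) :
    2 * c u 1 0 1 0 + ∑ d ∈ u.divisors, d = S u + u.divisors.card := by
  rw [S_eq2, ← card_Q_eq (m := u) (by omega)]
  set T := (Q u).filter (fun t => t.1 % 2 = 1 ∧ t.2.2.1 % 2 = 1) with hT
  have h1 := split_lt T (fun t => t.1) (fun t => t.2.2.1)
  have t3 : ∀ t ∈ T, s3 t ∈ T := by
    intro t ht
    rw [hT, mem_filter] at ht ⊢
    exact ⟨s3_mem t ht.1, ht.2.2, ht.2.1⟩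
  have h2 : (T.filter (fun t => t.1 < t.2.2.1)).card = (T.filter (fun t => t.2.2.1 < t.1)).card :=
    card_filter_invol _ s3 t3 (fun _ _ => rfl) _ _ (fun _ _ => Iff.rfl)
  have h3 : T.filter (fun t => t.1 = t.2.2.1) = (Q u).filter (fun t => t.1 = t.2.2.1) := by
    ext ⟨a, i, b, j⟩
    rw [mem_filter, hT, mem_filter, mem_filter, mem_Q]
    constructor
    · rintro ⟨⟨g1, g2⟩, g3⟩; exact ⟨g1, g3⟩
    · rintro ⟨⟨g1, g2, g3, g4, g5⟩, g6⟩
      simp only at g6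
      subst g6
      have e1 : a * (i + j) = u := by rw [← g5]; ring
      have e2 : (a * (i + j)) % 2 = 1 := by rw [e1]; exact hu
      rw [mul_odd_iff] at e2
      exact ⟨⟨⟨g1, g2, g3, g4, g5⟩, e2.1, e2.1⟩, rfl⟩
  have h4 : (T.filter (fun t => t.2.2.1 < t.1)).card = c u 1 0 1 0 := by
    refine Finset.card_bij (fun t _ => (t.1, 2 * t.2.1, t.2.2.1, 2 * t.2.2.2)) ?_ ?_ ?_
    · rintro ⟨a, i, b, j⟩ h
      rw [mem_filter, hT, mem_filter, mem_Q] at h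
      obtain ⟨⟨⟨g1, g2, g3, g4, g5⟩, g6, g7⟩, g8⟩ := h
      simp only at g6 g7 g8
      show (a, 2 * i, b, 2 * j) ∈ _
      rw [mem_filter, mem_N2]
      refine ⟨⟨by omega, by omega, by omega, by omega, by rw [← g5]; ring⟩, ?_⟩
      show a % 2 = 1 ∧ (2 * i) % 2 = 0 ∧ b % 2 = 1 ∧ (2 * j) % 2 = 0
      omega
    · rintro ⟨a, i, b, j⟩ _ ⟨a', i', b', j'⟩ _ he
      simp only [Prod.mk.injEq] at he ⊢
      omega
    · rintro ⟨a, i, b, j⟩ h
      rw [mem_filter, mem_N2] at h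
      obtain ⟨⟨g1, g2, g3, g4, g5⟩, g6, g7, g8, g9⟩ := h
      simp only at g6 g7 g8 g9
      obtain ⟨x, rfl⟩ : ∃ x, i = 2 * x := ⟨i / 2, by omega⟩
      obtain ⟨y, rfl⟩ : ∃ y, j = 2 * y := ⟨j / 2, by omega⟩
      refine ⟨(a, x, b, y), ?_, rfl⟩
      rw [mem_filter, hT, mem_filter, mem_Q]
      refine ⟨⟨⟨by omega, by omega, by omega, by omega, ?_⟩, g6, g8⟩, g2⟩
      have : a * (2 * x) + b * (2 * y) = 2 * (a * x + b * y) := by ring
      omega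
  rw [h3] at h1
  omega

/-- `α + ω = S` -/
lemma alpha_S {u : ℕ} : c u 1 0 0 1 + c u 1 1 1 1 = S u := by
  have h0 : S u = ((Q (2 * u)).filter (fun t => ty 1 0 0 1 t)).card := by
    refine Finset.card_bij (fun t _ => (t.1, 2 * t.2.1, 2 * t.2.2.1, t.2.2.2)) ?_ ?_ ?_
    · rintro ⟨a, i, b, j⟩ h
      rw [mem_filter, mem_Q] at h
      obtain ⟨⟨g1, g2, g3, g4, g5⟩, g6, g7⟩ := h
      simp only at g6 g7
      show (a, 2 * i, 2 * b, j) ∈ _
      rw [mem_filter, mem_Q]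
      refine ⟨⟨by omega, by omega, by omega, by omega, by rw [← g5]; ring⟩, ?_⟩
      show a % 2 = 1 ∧ (2 * i) % 2 = 0 ∧ (2 * b) % 2 = 0 ∧ j % 2 = 1
      omega
    · rintro ⟨a, i, b, j⟩ _ ⟨a', i', b', j'⟩ _ he
      simp only [Prod.mk.injEq] at he ⊢
      omega
    · rintro ⟨a, i, b, j⟩ h
      rw [mem_filter, mem_Q] at h
      obtain ⟨⟨g1, g2, g3, g4, g5⟩, g6, g7, g8, g9⟩ := h
      simp only at g6 g7 g8 g9
      obtain ⟨x, rfl⟩ : ∃ x, i = 2 * x := ⟨i / 2, by omega⟩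
      obtain ⟨y, rfl⟩ : ∃ y, b = 2 * y := ⟨b / 2, by omega⟩
      refine ⟨(a, x, y, j), ?_, rfl⟩
      rw [mem_filter, mem_Q]
      refine ⟨⟨by omega, by omega, by omega, by omega, ?_⟩, g6, g9⟩
      have : a * (2 * x) + 2 * y * j = 2 * (a * x + y * j) := by ring
      omega
  rw [h0]
  set T := (Q (2 * u)).filter (fun t => ty 1 0 0 1 t) with hT
  have h1 := split_lt T (fun t => t.1) (fun t => t.2.2.1)
  have h3 : T.filter (fun t => t.1 = t.2.2.1) = ∅ := by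
    rw [Finset.filter_eq_empty_iff]
    rintro ⟨a, i, b, j⟩ h he
    rw [hT, mem_filter] at h
    obtain ⟨_, g6, g7, g8, g9⟩ := h
    simp only at g6 g7 g8 g9 he
    omega
  have h4 : T.filter (fun t => t.2.2.1 < t.1) = (N2 (2 * u)).filter (fun t => ty 1 0 0 1 t) := by
    ext ⟨a, i, b, j⟩
    rw [mem_filter, hT, mem_filter, mem_filter, mem_Q, mem_N2]
    constructor
    · rintro ⟨⟨⟨g1, g2, g3, g4, g5⟩, g6⟩, g7⟩
      exact ⟨⟨g3, g7, g2, g4, g5⟩, g6⟩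
    · rintro ⟨⟨g1, g2, g3, g4, g5⟩, g6⟩
      exact ⟨⟨⟨by omega, g3, g1, g4, g5⟩, g6⟩, g2⟩
  have h5 : (T.filter (fun t => t.1 < t.2.2.1)).card = c u 1 1 1 1 := by
    symm
    refine Finset.card_bij (fun t _ => (t.2.1, t.1 - t.2.2.1, t.2.1 + t.2.2.2, t.2.2.1)) ?_ ?_ ?_
    · rintro ⟨a, i, b, j⟩ h
      rw [mem_filter, mem_N2] at h
      obtain ⟨⟨g1, g2, g3, g4, g5⟩, g6, g7, g8, g9⟩ := h
      simp only at g6 g7 g8 g9
      show (i, a - b, i + j, b) ∈ _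
      rw [mem_filter, hT, mem_filter, mem_Q]
      obtain ⟨d, rfl⟩ : ∃ d, a = b + d := ⟨a - b, by omega⟩
      have e : b + d - b = d := by omega
      rw [e]
      refine ⟨⟨⟨by omega, by omega, by omega, by omega, ?_⟩, ?_⟩, ?_⟩
      · rw [← g5]; ring
      · show i % 2 = 1 ∧ d % 2 = 0 ∧ (i + j) % 2 = 0 ∧ b % 2 = 1
        omega
      · show i < i + j
        omega
    · rintro ⟨a, i, b, j⟩ h ⟨a', i', b', j'⟩ h' he
      rw [mem_filter, mem_N2] at h h'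
      simp only [Prod.mk.injEq] at he ⊢
      obtain ⟨⟨g1, g2, g3, g4, g5⟩, _⟩ := h
      obtain ⟨⟨k1, k2, k3, k4, k5⟩, _⟩ := h'
      omega
    · rintro ⟨a, i, b, j⟩ h
      rw [mem_filter, hT, mem_filter, mem_Q] at h
      obtain ⟨⟨⟨g1, g2, g3, g4, g5⟩, g6, g7, g8, g9⟩, g10⟩ := h
      simp only at g6 g7 g8 g9 g10
      refine ⟨(j + i, a, j, b - a), ?_, ?_⟩
      · rw [mem_filter, mem_N2]
        obtain ⟨d, rfl⟩ : ∃ d, b = a + d := ⟨b - a, by omega⟩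
        have e : a + d - a = d := by omega
        rw [e]
        refine ⟨⟨by omega, by omega, by omega, by omega, ?_⟩, ?_⟩
        · rw [← g5]; ring
        · show (j + i) % 2 = 1 ∧ a % 2 = 1 ∧ j % 2 = 1 ∧ d % 2 = 1
          omega
      · show (a, j + i - j, a + (b - a), j) = (a, i, b, j)
        simp only [Prod.mk.injEq, true_and, and_true]
        omega
  rw [h3, Finset.card_empty] at h1
  rw [h4, ← c] at h1
  omega

/-- all-odd solutions of `a i + b j = 2u` -/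
def QO (u : ℕ) : Finset (ℕ × ℕ × ℕ × ℕ) := (Q (2 * u)).filter (fun t => ty 1 1 1 1 t)

lemma mem_QO {u a i b j : ℕ} : (a, i, b, j) ∈ QO u ↔ (1 ≤ a ∧ 1 ≤ i ∧ 1 ≤ b ∧ 1 ≤ j ∧
    a * i + b * j = 2 * u) ∧ a % 2 = 1 ∧ i % 2 = 1 ∧ b % 2 = 1 ∧ j % 2 = 1 := by
  rw [QO, mem_filter, mem_Q]; rfl

lemma QO_s1 {u : ℕ} : ∀ t ∈ QO u, s1 t ∈ QO u := by
  rintro ⟨a, i, b, j⟩ h
  rw [mem_QO] at h
  show (i, a, b, j) ∈ _
  rw [mem_QO, mul_comm i a]
  tauto

lemma QO_s2 {u : ℕ} : ∀ t ∈ QO u, s2 t ∈ QO u := by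
  rintro ⟨a, i, b, j⟩ h
  rw [mem_QO] at h
  show (a, i, j, b) ∈ _
  rw [mem_QO, mul_comm j b]
  tauto

lemma QO_s3 {u : ℕ} : ∀ t ∈ QO u, s3 t ∈ QO u := by
  rintro ⟨a, i, b, j⟩ h
  rw [mem_QO] at h
  show (b, j, a, i) ∈ _
  rw [mem_QO, add_comm (b * j)]
  tauto

/-- `2 ω + σ = W` -/
lemma omega_W {u : ℕ} (hu : u % 2 = 1) :
    2 * c u 1 1 1 1 + ∑ d ∈ u.divisors, d = (QO u).card := by
  have h1 := split_lt (QO u) (fun t => t.1) (fun t => t.2.2.1)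
  have h2 : ((QO u).filter (fun t => t.1 < t.2.2.1)).card =
      ((QO u).filter (fun t => t.2.2.1 < t.1)).card :=
    card_filter_invol _ s3 QO_s3 (fun _ _ => rfl) _ _ (fun _ _ => Iff.rfl)
  have h4 : (QO u).filter (fun t => t.2.2.1 < t.1) =
      (N2 (2 * u)).filter (fun t => ty 1 1 1 1 t) := by
    ext ⟨a, i, b, j⟩
    rw [mem_filter, mem_QO, mem_filter, mem_N2]
    constructor
    · rintro ⟨⟨⟨g1, g2, g3, g4, g5⟩, g6⟩, g7⟩
      exact ⟨⟨g3, g7, g2, g4, g5⟩, g6⟩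
    · rintro ⟨⟨g1, g2, g3, g4, g5⟩, g6⟩
      exact ⟨⟨⟨by omega, g3, g1, g4, g5⟩, g6⟩, g2⟩
  have h5 : ((QO u).filter (fun t => t.1 = t.2.2.1)).card = ∑ d ∈ u.divisors, d := by
    have e0 : ((QO u).filter (fun t => t.1 = t.2.2.1)).card =
        (u.divisors.sigma (fun a => range (u / a))).card := by
      symm
      refine Finset.card_bij (fun (t : Σ _ : ℕ, ℕ) _ =>
        (t.1, 2 * t.2 + 1, t.1, 2 * (u / t.1) - (2 * t.2 + 1))) ?_ ?_ ?_
      · rintro ⟨a, k⟩ h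
        rw [Finset.mem_sigma, Nat.mem_divisors, mem_range] at h
        obtain ⟨⟨⟨z, hz⟩, h0⟩, h3⟩ := h
        simp only at hz h3
        have ha : 0 < a := by
          rcases Nat.eq_zero_or_pos a with h | h
          · subst h; simp at hz; exact absurd hz h0
          · exact h
        have e2 : u / a = z := by rw [hz]; exact Nat.mul_div_cancel_left _ ha
        have haz : (a * z) % 2 = 1 := by rw [← hz]; exact hu
        rw [mul_odd_iff] at haz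
        rw [e2] at h3
        show (a, 2 * k + 1, a, 2 * (u / a) - (2 * k + 1)) ∈ _
        rw [e2, mem_filter, mem_QO]
        refine ⟨⟨⟨ha, by omega, ha, by omega, ?_⟩, haz.1, by omega, haz.1, by omega⟩, rfl⟩
        rw [← mul_add, hz]
        have : 2 * k + 1 + (2 * z - (2 * k + 1)) = 2 * z := by omega
        rw [this]; ring
      · rintro ⟨a, k⟩ _ ⟨a', k'⟩ _ he
        simp only [Prod.mk.injEq] at he
        obtain ⟨e1, e2, _, _⟩ := he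
        subst e1
        have : k = k' := by omega
        rw [this]
      · rintro ⟨a, i, b, j⟩ h
        rw [mem_filter, mem_QO] at h
        obtain ⟨⟨⟨g1, g2, g3, g4, g5⟩, g6, g7, g8, g9⟩, g10⟩ := h
        simp only at g10
        subst g10
        obtain ⟨k, rfl⟩ : ∃ k, i = 2 * k + 1 := ⟨i / 2, by omega⟩
        obtain ⟨l, rfl⟩ : ∃ l, j = 2 * l + 1 := ⟨j / 2, by omega⟩
        have e1 : a * (k + l + 1) = u := by
          have : a * (2 * k + 1) + a * (2 * l + 1) = 2 * (a * (k + l + 1)) := by ring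
          omega
        have e2 : u / a = k + l + 1 := by rw [← e1]; exact Nat.mul_div_cancel_left _ (by omega)
        refine ⟨⟨a, k⟩, ?_, ?_⟩
        · rw [Finset.mem_sigma, Nat.mem_divisors, mem_range]
          refine ⟨⟨⟨k + l + 1, e1.symm⟩, by omega⟩, ?_⟩
          show k < u / a
          omega
        · show (a, 2 * k + 1, a, 2 * (u / a) - (2 * k + 1)) = (a, 2 * k + 1, a, 2 * l + 1)
          rw [e2]
          simp only [Prod.mk.injEq, true_and]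
          omega
    rw [e0, Finset.card_sigma]
    simp only [Finset.card_range]
    exact Nat.sum_div_divisors u (fun d => d)
  rw [h4, ← c] at h1 h2
  omega

/-- `W = 8 X + 4 H + d²` -/
lemma QO_eight {u : ℕ} (hu : u % 2 = 1) (h2 : ∀ x y : ℕ, x ^ 2 + y ^ 2 ≠ 2 * u) :
    ∃ X, (QO u).card = 8 * X + 4 * ((Hs (2 * u)).filter (fun t => t.1 % 2 = 1)).card +
      u.divisors.card * u.divisors.card := by
  obtain ⟨X, hX⟩ := card_eight (QO u) QO_s1 QO_s2 QO_s3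
    (by
      rintro ⟨a, i, b, j⟩ h ⟨h3, h4⟩
      rw [mem_QO] at h
      simp only at h3 h4
      subst h3 h4
      exact h2 a b (by rw [← h.1.2.2.2.2]; ring))
    (by
      rintro ⟨a, i, b, j⟩ h ⟨h3, h4⟩
      rw [mem_QO] at h
      simp only at h3 h4
      subst h3
      have : a * a = u := by omega
      exact h2 a a (by rw [← this]; ring))
  refine ⟨X, ?_⟩
  have e1 : ((QO u).filter (fun t => t.1 = t.2.1 ∧ t.2.2.1 < t.2.2.2)).card =
      ((Hs (2 * u)).filter (fun t => t.1 % 2 = 1)).card := by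
    refine Finset.card_bij (fun t _ => (t.1, t.2.2.1, t.2.2.2)) ?_ ?_ ?_
    · rintro ⟨a, i, b, j⟩ h
      rw [mem_filter, mem_QO] at h
      obtain ⟨⟨⟨g1, g2, g3, g4, g5⟩, g6⟩, g7, g8⟩ := h
      simp only at g7 g8
      subst g7
      show (a, b, j) ∈ _
      rw [mem_filter, mem_Hs]
      exact ⟨⟨g1, g3, g8, by rw [← g5]; ring⟩, g6.1⟩
    · rintro ⟨a, i, b, j⟩ h ⟨a', i', b', j'⟩ h' he
      rw [mem_filter] at h h'
      simp only [Prod.mk.injEq] at h h' he ⊢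
      omega
    · rintro ⟨x, y, z⟩ h
      rw [mem_filter, mem_Hs] at h
      obtain ⟨⟨g1, g2, g3, g4⟩, g5⟩ := h
      simp only at g5
      refine ⟨(x, x, y, z), ?_, rfl⟩
      rw [mem_filter, mem_QO]
      have e5 : x * x + y * z = 2 * u := by rw [← g4]; ring
      have e6 : (x * x) % 2 = 1 := by rw [mul_odd_iff]; exact ⟨g5, g5⟩
      have e7 : (y * z) % 2 = 1 := by omega
      rw [mul_odd_iff] at e7
      exact ⟨⟨⟨g1, g1, g2, by omega, e5⟩, g5, g5, e7.1, e7.2⟩, rfl, g3⟩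
  have e2 : ((QO u).filter (fun t => t.1 * t.2.1 = t.2.2.1 * t.2.2.2)).card =
      u.divisors.card * u.divisors.card := by
    rw [← card_Q_mid (u := u) (by omega)]
    congr 1
    ext ⟨a, i, b, j⟩
    rw [mem_filter, mem_QO, mem_filter, mem_Q]
    constructor
    · rintro ⟨⟨g1, g2⟩, g3⟩; exact ⟨g1, g3⟩
    · rintro ⟨g1, g3⟩
      refine ⟨⟨g1, ?_⟩, g3⟩
      simp only at g3
      have g5 := g1.2.2.2.2
      have e5 : (a * i) % 2 = 1 := by omega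
      have e6 : (b * j) % 2 = 1 := by omega
      rw [mul_odd_iff] at e5 e6
      exact ⟨e5.1, e5.2, e6.1, e6.2⟩
  rw [hX, e1, e2]

/-- `2 ν₂(2u) + σ(2u) - d(2u) = 8 X + 4 H + d²`. -/
lemma nu_eight {u : ℕ} (hu : u % 2 = 1) (h2 : ∀ x y : ℕ, x ^ 2 + y ^ 2 ≠ 2 * u) :
    ∃ X, 2 * (N2 (2 * u)).card + 3 * ∑ d ∈ u.divisors, d =
      8 * X + u.divisors.card * u.divisors.card + 2 * u.divisors.card := by
  obtain ⟨X, hX⟩ := card_eight (Q (2 * u)) s1_mem s2_mem s3_mem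
    (by
      rintro ⟨a, i, b, j⟩ h ⟨h3, h4⟩
      rw [mem_Q] at h
      simp only at h3 h4
      subst h3 h4
      exact h2 a b (by rw [← h.2.2.2.2]; ring))
    (by
      rintro ⟨a, i, b, j⟩ h ⟨h3, h4⟩
      rw [mem_Q] at h
      simp only at h3 h4
      subst h3
      have : a * a = u := by omega
      exact h2 a a (by rw [← this]; ring))
  have e1 : ((Q (2 * u)).filter (fun t => t.1 = t.2.1 ∧ t.2.2.1 < t.2.2.2)).card =
      (Hs (2 * u)).card := by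
    refine Finset.card_bij (fun t _ => (t.1, t.2.2.1, t.2.2.2)) ?_ ?_ ?_
    · rintro ⟨a, i, b, j⟩ h
      rw [mem_filter, mem_Q] at h
      obtain ⟨⟨g1, g2, g3, g4, g5⟩, g7, g8⟩ := h
      simp only at g7 g8
      subst g7
      show (a, b, j) ∈ _
      rw [mem_Hs]
      exact ⟨g1, g3, g8, by rw [← g5]; ring⟩
    · rintro ⟨a, i, b, j⟩ h ⟨a', i', b', j'⟩ h' he
      rw [mem_filter] at h h'
      simp only [Prod.mk.injEq] at h h' he ⊢
      omega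
    · rintro ⟨x, y, z⟩ h
      rw [mem_Hs] at h
      obtain ⟨g1, g2, g3, g4⟩ := h
      refine ⟨(x, x, y, z), ?_, rfl⟩
      rw [mem_filter, mem_Q]
      have e5 : x * x + y * z = 2 * u := by rw [← g4]; ring
      exact ⟨⟨g1, g1, g2, by omega, e5⟩, rfl, g3⟩
  have e3 := card_Q_mid (u := u) (by omega)
  have e4 := Hs_card_even' hu h2
  have e5 := card_Q_N2 (2 * u)
  have e6 := card_Q_eq (m := 2 * u) (by omega)
  have hcop : Nat.Coprime 2 u := by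
    rw [Nat.coprime_two_left]; exact Nat.odd_iff.2 hu
  have h6 : (2 * u).divisors.card = 2 * u.divisors.card := by
    rw [Nat.Coprime.card_divisors_mul hcop]
    congr 1
  have h7 : ∑ d ∈ (2 * u).divisors, d = 3 * ∑ d ∈ u.divisors, d := by
    rw [Nat.Coprime.sum_divisors_mul hcop]
    congr 1
  rw [h7, h6] at e6
  rw [e1, e3] at hX
  refine ⟨X + (Hs (2 * u)).card / 2, ?_⟩
  omega

end Pool.Agent.Q224.Rk
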