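import Pool.Agent.Q224.Rk.Count

namespace Pool.Agent.Q224.Rk

open Finset Pool.Agent.Q224.Nu

/-- `(λ₁, m₁, λ₂, m₂)` is a partition `(λ₁^{m₁} λ₂^{m₂})` of `N` into exactly two part sizes. -/
def IsP2 (N : ℕ) (t : ℕ × ℕ × ℕ × ℕ) : Prop :=
  1 ≤ t.2.2.1 ∧ t.2.2.1 < t.1 ∧ 1 ≤ t.2.1 ∧ 1 ≤ t.2.2.2 ∧ t.1 * t.2.1 + t.2.2.1 * t.2.2.2 = N

/-- Dyson's rank `λ₁ - m₁ - m₂`. -/
def rk (t : ℕ × ℕ × ℕ × ℕ) : ℤ := (t.1 : ℤ) - t.2.1 - t.2.2.2

/-- `rk₂ = λ₁ + λ₂ - 2 m₁ - m₂`. -/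
def rk2 (t : ℕ × ℕ × ℕ × ℕ) : ℤ := (t.1 : ℤ) + t.2.2.1 - 2 * t.2.1 - t.2.2.2

/-- The number of `λ ∈ P₂(N)` with `s(λ) ≡ ε (mod 2)`, for `ε ∈ {0, 1}`. -/
noncomputable def NN (s : ℕ × ℕ × ℕ × ℕ → ℤ) (ε : ℤ) (N : ℕ) : ℕ :=
  Set.ncard {t : ℕ × ℕ × ℕ × ℕ | IsP2 N t ∧ s t % 2 = ε}

lemma NN_eq (s : ℕ × ℕ × ℕ × ℕ → ℤ) (ε : ℤ) (N : ℕ) :
    NN s ε N = ((N2 N).filter (fun t => s t % 2 = ε)).card := by
  unfold NN
  rw [← Set.ncard_coe_finset]
  congr 1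
  ext ⟨a, i, b, j⟩
  simp only [Set.mem_setOf_eq, coe_filter, mem_N2]
  rfl

lemma NN_add (s : ℕ × ℕ × ℕ × ℕ → ℤ) (N : ℕ) : NN s 0 N + NN s 1 N = (N2 N).card := by
  rw [NN_eq, NN_eq]
  have h := Finset.card_filter_add_card_filter_not (s := N2 N) (fun t => s t % 2 = 0)
  have h1 : (N2 N).filter (fun t => ¬ s t % 2 = 0) = (N2 N).filter (fun t => s t % 2 = 1) := by
    apply Finset.filter_congr
    intro t _
    omega
  rw [h1] at h
  exact h

lemma N0_rk {u : ℕ} (hu : u % 2 = 1) :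
    NN rk 0 (2 * u) = c u 0 0 1 0 + c u 0 1 0 1 + c u 1 0 0 1 := by
  rw [NN_eq]
  unfold c
  rw [Finset.card_filter, Finset.card_filter, Finset.card_filter, Finset.card_filter,
    ← Finset.sum_add_distrib, ← Finset.sum_add_distrib]
  apply Finset.sum_congr rfl
  rintro ⟨a, i, b, j⟩ h
  rw [mem_N2] at h
  obtain ⟨p1, p2⟩ := par4 hu h.2.2.2.2
  by_cases c1 : ty 0 0 1 0 (a, i, b, j) <;> by_cases c2 : ty 0 1 0 1 (a, i, b, j) <;>
    by_cases c3 : ty 1 0 0 1 (a, i, b, j) <;> by_cases c4 : rk (a, i, b, j) % 2 = 0 <;>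
    simp only [c1, c2, c3, c4, if_true, if_false]
  all_goals (exfalso; simp only [ty, rk] at c1 c2 c3 c4; omega)

lemma N0_rk2 {u : ℕ} (hu : u % 2 = 1) :
    NN rk2 0 (2 * u) = c u 0 1 0 0 + c u 1 0 1 0 + c u 1 0 0 1 := by
  rw [NN_eq]
  unfold c
  rw [Finset.card_filter, Finset.card_filter, Finset.card_filter, Finset.card_filter,
    ← Finset.sum_add_distrib, ← Finset.sum_add_distrib]
  apply Finset.sum_congr rfl
  rintro ⟨a, i, b, j⟩ h
  rw [mem_N2] at h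
  obtain ⟨p1, p2⟩ := par4 hu h.2.2.2.2
  by_cases c1 : ty 0 1 0 0 (a, i, b, j) <;> by_cases c2 : ty 1 0 1 0 (a, i, b, j) <;>
    by_cases c3 : ty 1 0 0 1 (a, i, b, j) <;> by_cases c4 : rk2 (a, i, b, j) % 2 = 0 <;>
    simp only [c1, c2, c3, c4, if_true, if_false]
  all_goals (exfalso; simp only [ty, rk2] at c1 c2 c3 c4; omega)

lemma main {u : ℕ} (hu : u % 2 = 1) (h2 : ∀ x y : ℕ, x ^ 2 + y ^ 2 ≠ 2 * u)
    (hs : (∑ d ∈ u.divisors, d) % 8 = 0) (hB : B0 u % 2 = 0) :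
    (4 ∣ NN rk2 0 (2 * u) ∧ 4 ∣ NN rk2 1 (2 * u)) ∧
      (u.divisors.card % 4 = 0 → 4 ∣ NN rk 0 (2 * u) ∧ 4 ∣ NN rk 1 (2 * u)) := by
  have hns : ∀ r, r * r ≠ u := fun r hr => h2 r r (by rw [← hr]; ring)
  have hd := card_divisors_nonsq hns (by omega)
  set D := (u.divisors.filter (fun y => y * y < u)).card with hD
  have e1 := gamma_S hu
  have e2 := beta_S hu
  have e3 := alpha_S (u := u)
  have e4 := omega_W hu
  obtain ⟨X, e5⟩ := QO_eight hu h2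
  have e6 := Hs_odd_par hu h2
  obtain ⟨X', e7⟩ := nu_eight hu h2
  have e8 := NN_add rk (2 * u)
  have e9 := NN_add rk2 (2 * u)
  have e10 := N0_rk hu
  have e11 := N0_rk2 hu
  have e12 := c_conj1 u
  have e13 := c_conj2 u
  have hDD : (D * D) % 2 = D % 2 := by
    rcases Nat.mod_two_eq_zero_or_one D with h | h <;> simp [Nat.mul_mod, h]
  have hdd : u.divisors.card * u.divisors.card = 4 * (D * D) := by rw [hd]; ring
  rw [hdd] at e5 e7
  refine ⟨⟨?_, ?_⟩, fun hd4 => ⟨?_, ?_⟩⟩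
  · omega
  · omega
  · omega
  · omega

lemma zmod_dvd {p x : ℕ} (h : (x : ZMod p) = 0) : ∃ k, x = p * k :=
  (ZMod.natCast_eq_zero_iff x p).1 h

lemma sigma_even {w : ℕ} (hw : w % 2 = 1) (hns : ∀ r, r * r ≠ w) :
    (∑ d ∈ w.divisors, d) % 2 = 0 ∧ w.divisors.card % 2 = 0 := by
  have h1 := card_divisors_nonsq hns (by omega)
  have h2 : 2 ∣ ∑ d ∈ w.divisors, (d + 1) := by
    apply Finset.dvd_sum
    intro d hd
    rw [Nat.mem_divisors] at hd
    obtain ⟨⟨z, hz⟩, _⟩ := hd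
    have h3 : (d * z) % 2 = 1 := by rw [← hz]; exact hw
    rw [mul_odd_iff] at h3
    omega
  rw [Finset.sum_add_distrib, Finset.sum_const, smul_eq_mul, mul_one] at h2
  omega

/-! ### the class of `(16, 14)` -/

lemma cond16 {u : ℕ} (hu : u % 8 = 7) : (∀ x y : ℕ, x ^ 2 + y ^ 2 ≠ 2 * u) ∧
    (∑ d ∈ u.divisors, d) % 8 = 0 ∧ B0 u % 2 = 0 := by
  have hu8 : (u : ZMod 8) = 7 := by
    obtain ⟨k, hk⟩ : ∃ k, u = 8 * k + 7 := ⟨u / 8, by omega⟩
    rw [hk]; push_cast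
    have : (8 : ZMod 8) = 0 := rfl
    rw [this]; ring
  refine ⟨fun x y => not_two_sq (by omega), ?_, ?_⟩
  · have key : ∑ d ∈ u.divisors, (d : ZMod 8) = 0 := by
      have hdec : ∀ y z : ZMod 8, y * z = 7 → y + z = 0 := by decide
      apply Finset.sum_involution (fun d _ => u / d)
      · intro d hd
        rw [Nat.mem_divisors] at hd
        obtain ⟨⟨z, hz⟩, h0⟩ := hd
        have hd0 : 0 < d := by
          rcases Nat.eq_zero_or_pos d with h | h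
          · subst h; simp at hz; exact absurd hz h0
          · exact h
        have e : u / d = z := by rw [hz]; exact Nat.mul_div_cancel_left z hd0
        rw [e]
        apply hdec
        rw [← hu8, hz]; push_cast; ring
      · intro d hd _ he
        rw [Nat.mem_divisors] at hd
        have h1 := Nat.div_mul_cancel hd.1
        rw [he] at h1
        exact nonsq_of_mod (by omega) d h1
      · intro d hd
        rw [Nat.mem_divisors] at hd ⊢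
        exact ⟨Nat.div_dvd_of_dvd hd.1, hd.2⟩
      · intro d hd
        rw [Nat.mem_divisors] at hd
        exact Nat.div_div_self hd.1 hd.2
    have key2 : ((∑ d ∈ u.divisors, d : ℕ) : ZMod 8) = 0 := by push_cast; exact key
    have := (ZMod.natCast_eq_zero_iff _ 8).1 key2
    omega
  · have : (Cs u).filter (fun t => t.2.1 = t.2.2) = ∅ := by
      rw [Finset.filter_eq_empty_iff]
      rintro ⟨q, s, t⟩ h he
      rw [mem_Cs] at h
      simp only at he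
      subst he
      have hdec : ∀ q s : ZMod 8, 2 * q ^ 2 + s * s ≠ 7 := by decide
      apply hdec (q : ZMod 8) (s : ZMod 8)
      rw [← hu8, ← h.2.2.2]; push_cast; ring
    rw [B0, this]; rfl

/-! ### the class of `(196, 70)` -/

lemma cond7 {w : ℕ} (hw : w % 2 = 1) (h7 : w % 7 = 5) : (∀ x y : ℕ, x ^ 2 + y ^ 2 ≠ 2 * (7 * w)) ∧
    (∑ d ∈ (7 * w).divisors, d) % 8 = 0 ∧ B0 (7 * w) % 2 = 0 ∧ (7 * w).divisors.card % 4 = 0 := by
  have hns : ∀ r, r * r ≠ w := by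
    intro r hr
    have hdec : ∀ r : ZMod 7, r * r ≠ 5 := by decide
    apply hdec (r : ZMod 7)
    obtain ⟨k, hk⟩ : ∃ k, w = 7 * k + 5 := ⟨w / 7, by omega⟩
    have h1 : ((r * r : ℕ) : ZMod 7) = ((7 * k + 5 : ℕ) : ZMod 7) := by rw [hr, hk]
    push_cast at h1
    rw [h1, show (7 : ZMod 7) = 0 from rfl]; ring
  have hcop : Nat.Coprime 7 w := by
    rw [Nat.Prime.coprime_iff_not_dvd (by norm_num)]; omega
  obtain ⟨s1, s2⟩ := sigma_even hw hns
  refine ⟨?_, ?_, ?_, ?_⟩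
  · intro x y h
    have hdec : ∀ x y : ZMod 7, x ^ 2 + y ^ 2 = 0 → x = 0 ∧ y = 0 := by decide
    have h1 : ((x ^ 2 + y ^ 2 : ℕ) : ZMod 7) = ((2 * (7 * w) : ℕ) : ZMod 7) := by rw [h]
    push_cast at h1
    rw [show (7 : ZMod 7) = 0 from rfl] at h1
    obtain ⟨hx, hy⟩ := hdec _ _ (by rw [h1]; ring)
    obtain ⟨k, rfl⟩ := zmod_dvd hx
    obtain ⟨l, rfl⟩ := zmod_dvd hy
    have h3 : (7 * k) ^ 2 + (7 * l) ^ 2 = 49 * (k ^ 2 + l ^ 2) := by ring
    omega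
  · rw [Nat.Coprime.sum_divisors_mul hcop, Nat.Prime.divisors (by norm_num),
      Finset.sum_pair (by norm_num)]
    omega
  · have : (Cs (7 * w)).filter (fun t => t.2.1 = t.2.2) = ∅ := by
      rw [Finset.filter_eq_empty_iff]
      rintro ⟨q, s, t⟩ h he
      rw [mem_Cs] at h
      simp only at he
      subst he
      have hdec : ∀ q s : ZMod 7, 2 * q ^ 2 + s * s = 0 → q = 0 ∧ s = 0 := by decide
      have h1 : ((2 * q ^ 2 + s * s : ℕ) : ZMod 7) = ((7 * w : ℕ) : ZMod 7) := by rw [h.2.2.2]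
      push_cast at h1
      rw [show (7 : ZMod 7) = 0 from rfl] at h1
      obtain ⟨hx, hy⟩ := hdec _ _ (by rw [h1]; ring)
      obtain ⟨k, rfl⟩ := zmod_dvd hx
      obtain ⟨l, rfl⟩ := zmod_dvd hy
      have h3 : 2 * (7 * k) ^ 2 + (7 * l) * (7 * l) = 49 * (2 * k ^ 2 + l * l) := by ring
      have h4 := h.2.2.2
      omega
    rw [B0, this]; rfl
  · rw [Nat.Coprime.card_divisors_mul hcop, Nat.Prime.divisors (by norm_num),
      Finset.card_pair (by norm_num)]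
    omega

/-! ### the classes with `3 ∥ u` -/

noncomputable def R (w : ℕ) : Finset (ℤ × ℤ) :=
  (Icc (1 : ℤ) w ×ˢ Icc (-(w : ℤ)) w).filter (fun t => t.1 ^ 2 + 2 * t.2 ^ 2 = (w : ℤ))

lemma mem_R {w : ℕ} {a b : ℤ} : (a, b) ∈ R w ↔ 0 < a ∧ a ^ 2 + 2 * b ^ 2 = (w : ℤ) := by
  simp only [R, mem_filter, mem_product, mem_Icc]
  constructor
  · rintro ⟨⟨⟨h1, h2⟩, h3, h4⟩, h5⟩; exact ⟨by omega, h5⟩
  · rintro ⟨h1, h2⟩
    refine ⟨⟨⟨by omega, ?_⟩, ?_, ?_⟩, h2⟩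
    · nlinarith [sq_nonneg b]
    · nlinarith [sq_nonneg a, sq_nonneg (b + 1), sq_nonneg b]
    · nlinarith [sq_nonneg a, sq_nonneg (b - 1), sq_nonneg b]

lemma R_even {w : ℕ} (hns : ∀ r, r * r ≠ w) : (R w).card % 2 = 0 := by
  rw [parity_invol (R w) (fun t => (t.1, -t.2))]
  · have : (R w).filter (fun t => (t.1, -t.2) = t) = ∅ := by
      rw [Finset.filter_eq_empty_iff]
      rintro ⟨a, b⟩ h he
      rw [mem_R] at h
      simp only [Prod.mk.injEq, true_and] at he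
      have hb : b = 0 := by omega
      subst hb
      apply hns a.natAbs
      zify
      rw [abs_mul_abs_self]
      linarith [h.2, sq a]
    rw [this]; rfl
  · rintro ⟨a, b⟩ h
    rw [mem_R] at h
    show (a, -b) ∈ _
    rw [mem_R]
    exact ⟨h.1, by linarith [h.2, neg_sq b]⟩
  · rintro ⟨a, b⟩ _
    simp

lemma B0_three {w : ℕ} (hw : w % 2 = 1) (h3 : w % 3 ≠ 0) : B0 (3 * w) = (R w).card := by
  symm
  unfold B0
  have hw3 : ∀ K : ℤ, (w : ℤ) ≠ 3 * K := by intro K h; omega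
  refine Finset.card_bij (fun t _ =>
    ((t.1 + t.2).natAbs, (t.1 - 2 * t.2).natAbs, (t.1 - 2 * t.2).natAbs)) ?_ ?_ ?_
  · rintro ⟨a, b⟩ h
    rw [mem_R] at h
    obtain ⟨h1, h2⟩ := h
    show ((a + b).natAbs, (a - 2 * b).natAbs, (a - 2 * b).natAbs) ∈ _
    rw [mem_filter, mem_Cs]
    have n1 : a + b ≠ 0 := by
      intro h
      have : b = -a := by linarith
      subst this
      exact hw3 (a ^ 2) (by rw [← h2]; ring)
    have n2 : a - 2 * b ≠ 0 := by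
      intro h
      have : a = 2 * b := by linarith
      subst this
      exact hw3 (2 * b ^ 2) (by rw [← h2]; ring)
    refine ⟨⟨by omega, by omega, by omega, ?_⟩, rfl⟩
    zify
    rw [sq_abs, abs_mul_abs_self, ← h2]
    ring
  · rintro ⟨a, b⟩ h ⟨a', b'⟩ h' he
    rw [mem_R] at h h'
    obtain ⟨h1, h2⟩ := h
    obtain ⟨h1', h2'⟩ := h'
    simp only [Prod.mk.injEq] at he
    obtain ⟨e1, e2, _⟩ := he
    rw [Int.natAbs_eq_natAbs_iff] at e1 e2
    rcases e1 with e1 | e1 <;> rcases e2 with e2 | e2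
    · simp only [Prod.mk.injEq]; omega
    · exfalso
      have hb : b' = 2 * a' - 3 * b := by linarith
      subst hb
      exact hw3 (3 * a' ^ 2 - 8 * a' * b + 6 * b ^ 2) (by rw [← h2']; ring)
    · exfalso
      have hb : b' = 2 * a' + 3 * b := by linarith
      subst hb
      exact hw3 (3 * a' ^ 2 + 8 * a' * b + 6 * b ^ 2) (by rw [← h2']; ring)
    · exfalso; omega
  · rintro ⟨q, s, t⟩ h
    rw [mem_filter, mem_Cs] at h
    obtain ⟨⟨h1, h2, h4, h5⟩, h6⟩ := h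
    simp only at h6
    subst h6
    have h5z : 2 * (q : ℤ) ^ 2 + (s : ℤ) * s = 3 * w := by exact_mod_cast h5
    have hmod : (s % 3 = q % 3) ∨ ((s + q) % 3 = 0) := by
      have hdec : ∀ q s : ZMod 3, 2 * q ^ 2 + s * s = 0 → s = q ∨ s + q = 0 := by decide
      have h7 : ((2 * q ^ 2 + s * s : ℕ) : ZMod 3) = ((3 * w : ℕ) : ZMod 3) := by rw [h5]
      push_cast at h7
      rw [show (3 : ZMod 3) = 0 from rfl] at h7
      rcases hdec _ _ (by rw [h7]; ring) with h8 | h8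
      · left
        exact (ZMod.natCast_eq_natCast_iff' s q 3).1 h8
      · right
        have h9 : ((s + q : ℕ) : ZMod 3) = 0 := by push_cast; exact h8
        have := (ZMod.natCast_eq_zero_iff _ 3).1 h9
        omega
    rcases hmod with hm | hm
    · obtain ⟨b, hb⟩ : ∃ b : ℤ, (q : ℤ) - s = 3 * b := ⟨((q : ℤ) - s) / 3, by omega⟩
      refine ⟨((q : ℤ) - b, b), ?_, ?_⟩
      · rw [mem_R]
        refine ⟨by omega, ?_⟩
        have hs : (s : ℤ) = q - 3 * b := by linarith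
        rw [hs] at h5z
        apply mul_left_cancel₀ (show (3 : ℤ) ≠ 0 by norm_num)
        linear_combination h5z
      · show (((q : ℤ) - b + b).natAbs, ((q : ℤ) - b - 2 * b).natAbs,
          ((q : ℤ) - b - 2 * b).natAbs) = (q, s, s)
        simp only [Prod.mk.injEq]
        omega
    · obtain ⟨b, hb⟩ : ∃ b : ℤ, (q : ℤ) + s = 3 * b := ⟨((q : ℤ) + s) / 3, by omega⟩
      have hs : (s : ℤ) = 3 * b - q := by linarith
      have hab : ((q : ℤ) - b) ^ 2 + 2 * b ^ 2 = w := by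
        rw [hs] at h5z
        apply mul_left_cancel₀ (show (3 : ℤ) ≠ 0 by norm_num)
        linear_combination h5z
      rcases lt_trichotomy ((q : ℤ) - b) 0 with hlt | heq | hgt
      · refine ⟨(-((q : ℤ) - b), -b), ?_, ?_⟩
        · rw [mem_R]
          exact ⟨by omega, by rw [← hab]; ring⟩
        · show ((-((q : ℤ) - b) + -b).natAbs, (-((q : ℤ) - b) - 2 * -b).natAbs,
            (-((q : ℤ) - b) - 2 * -b).natAbs) = (q, s, s)
          simp only [Prod.mk.injEq]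
          omega
      · exfalso
        rw [heq] at hab
        have : (w : ℤ) = 2 * b ^ 2 := by rw [← hab]; ring
        omega
      · refine ⟨((q : ℤ) - b, b), ?_, ?_⟩
        · rw [mem_R]
          exact ⟨hgt, hab⟩
        · show (((q : ℤ) - b + b).natAbs, ((q : ℤ) - b - 2 * b).natAbs,
            ((q : ℤ) - b - 2 * b).natAbs) = (q, s, s)
          simp only [Prod.mk.injEq]
          omega

lemma cond3 {w : ℕ} (hw : w % 2 = 1) (h3 : w % 3 ≠ 0) (hns : ∀ r, r * r ≠ w) :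
    (∀ x y : ℕ, x ^ 2 + y ^ 2 ≠ 2 * (3 * w)) ∧
    (∑ d ∈ (3 * w).divisors, d) % 8 = 0 ∧ B0 (3 * w) % 2 = 0 ∧ (3 * w).divisors.card % 4 = 0 := by
  have hcop : Nat.Coprime 3 w := by
    rw [Nat.Prime.coprime_iff_not_dvd (by norm_num)]; omega
  obtain ⟨s1, s2⟩ := sigma_even hw hns
  refine ⟨?_, ?_, ?_, ?_⟩
  · intro x y h
    have hdec : ∀ x y : ZMod 3, x ^ 2 + y ^ 2 = 0 → x = 0 ∧ y = 0 := by decide
    have h1 : ((x ^ 2 + y ^ 2 : ℕ) : ZMod 3) = ((2 * (3 * w) : ℕ) : ZMod 3) := by rw [h]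
    push_cast at h1
    rw [show (3 : ZMod 3) = 0 from rfl] at h1
    obtain ⟨hx, hy⟩ := hdec _ _ (by rw [h1]; ring)
    obtain ⟨k, rfl⟩ := zmod_dvd hx
    obtain ⟨l, rfl⟩ := zmod_dvd hy
    have h3 : (3 * k) ^ 2 + (3 * l) ^ 2 = 9 * (k ^ 2 + l ^ 2) := by ring
    omega
  · rw [Nat.Coprime.sum_divisors_mul hcop, Nat.Prime.divisors (by norm_num),
      Finset.sum_pair (by norm_num)]
    omega
  · rw [B0_three hw h3]
    exact R_even hns
  · rw [Nat.Coprime.card_divisors_mul hcop, Nat.Prime.divisors (by norm_num),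
      Finset.card_pair (by norm_num)]
    omega

lemma nonsq3 {w : ℕ} (h : w % 3 = 2) : ∀ r, r * r ≠ w := by
  intro r hr
  have hdec : ∀ r : ZMod 3, r * r ≠ 2 := by decide
  apply hdec (r : ZMod 3)
  obtain ⟨k, hk⟩ : ∃ k, w = 3 * k + 2 := ⟨w / 3, by omega⟩
  have h1 : ((r * r : ℕ) : ZMod 3) = ((3 * k + 2 : ℕ) : ZMod 3) := by rw [hr, hk]
  push_cast at h1
  rw [h1, show (3 : ZMod 3) = 0 from rfl]; ring

lemma nonsq7 {w : ℕ} (h : w % 7 = 5) : ∀ r, r * r ≠ w := by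
  intro r hr
  have hdec : ∀ r : ZMod 7, r * r ≠ 5 := by decide
  apply hdec (r : ZMod 7)
  obtain ⟨k, hk⟩ : ∃ k, w = 7 * k + 5 := ⟨w / 7, by omega⟩
  have h1 : ((r * r : ℕ) : ZMod 7) = ((7 * k + 5 : ℕ) : ZMod 7) := by rw [hr, hk]
  push_cast at h1
  rw [h1, show (7 : ZMod 7) = 0 from rfl]; ring

/-- The set of the five progressions. -/
def SS : Finset (ℕ × ℕ) := {(16, 14), (36, 30), (72, 42), (196, 70), (252, 114)}

lemma case16 (n : ℕ) : 4 ∣ NN rk2 0 (16 * n + 14) ∧ 4 ∣ NN rk2 1 (16 * n + 14) := by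
  obtain ⟨h1, h2, h3⟩ := cond16 (u := 8 * n + 7) (by omega)
  have h := (main (u := 8 * n + 7) (by omega) h1 h2 h3).1
  rw [show 2 * (8 * n + 7) = 16 * n + 14 by ring] at h
  exact h

lemma case3 {A B w n : ℕ} (he : A * n + B = 2 * (3 * w)) (hw : w % 2 = 1) (h3 : w % 3 ≠ 0)
    (hns : ∀ r, r * r ≠ w) :
    (4 ∣ NN rk2 0 (A * n + B) ∧ 4 ∣ NN rk2 1 (A * n + B)) ∧
      (4 ∣ NN rk 0 (A * n + B) ∧ 4 ∣ NN rk 1 (A * n + B)) := by
  obtain ⟨h1, h2, h4, h5⟩ := cond3 hw h3 hns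
  have h := main (u := 3 * w) (by omega) h1 h2 h4
  rw [he]
  exact ⟨h.1, h.2 h5⟩

lemma case7 (n : ℕ) :
    (4 ∣ NN rk2 0 (196 * n + 70) ∧ 4 ∣ NN rk2 1 (196 * n + 70)) ∧
      (4 ∣ NN rk 0 (196 * n + 70) ∧ 4 ∣ NN rk 1 (196 * n + 70)) := by
  obtain ⟨h1, h2, h4, h5⟩ := cond7 (w := 14 * n + 5) (by omega) (by omega)
  have h := main (u := 7 * (14 * n + 5)) (by omega) h1 h2 h4
  rw [show 2 * (7 * (14 * n + 5)) = 196 * n + 70 by ring] at h
  exact ⟨h.1, h.2 h5⟩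

lemma case_four {AB : ℕ × ℕ} (h : AB ∈ SS) (h16 : AB ≠ (16, 14)) (n : ℕ) :
    (4 ∣ NN rk2 0 (AB.1 * n + AB.2) ∧ 4 ∣ NN rk2 1 (AB.1 * n + AB.2)) ∧
      (4 ∣ NN rk 0 (AB.1 * n + AB.2) ∧ 4 ∣ NN rk 1 (AB.1 * n + AB.2)) := by
  simp only [SS, mem_insert, mem_singleton] at h
  rcases h with rfl | rfl | rfl | rfl | rfl
  · exact absurd rfl h16
  · exact case3 (w := 6 * n + 5) (by ring) (by omega) (by omega) (nonsq3 (by omega))
  · exact case3 (w := 12 * n + 7) (by ring) (by omega) (by omega) (nonsq_of_mod (by omega))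
  · exact case7 n
  · exact case3 (w := 42 * n + 19) (by ring) (by omega) (by omega) (nonsq7 (by omega))

theorem rank_parity :
    (∀ AB ∈ SS, ∀ n : ℕ, 4 ∣ NN rk2 0 (AB.1 * n + AB.2) ∧ 4 ∣ NN rk2 1 (AB.1 * n + AB.2)) ∧
    (∀ AB ∈ SS, AB ≠ (16, 14) → ∀ n : ℕ,
      4 ∣ NN rk 0 (AB.1 * n + AB.2) ∧ 4 ∣ NN rk 1 (AB.1 * n + AB.2)) := by
  refine ⟨?_, ?_⟩
  · intro AB h n
    by_cases h16 : AB = (16, 14)
    · subst h16
      exact case16 n
    · exact (case_four h h16 n).1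
  · intro AB h h16 n
    exact (case_four h h16 n).2

end Pool.Agent.Q224.Rk
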