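import Pool.Agent.Q224.Nu.TwoD

/-! General versions of the counting lemmas, for `m ≡ 2 (mod 4)` not a sum of two squares. -/

namespace Pool.Agent.Q224.Rk

open Finset Pool.Agent.Q224.Nu

lemma two_sq_mod' {x p k : ℕ} (h : (x ^ 2 + p ^ 2 + 4 * k) % 4 = 2) : x % 2 = 1 ∧ p % 2 = 1 := by
  obtain ⟨a, ha⟩ : ∃ a, x = 2 * a ∨ x = 2 * a + 1 := ⟨x / 2, by omega⟩
  obtain ⟨b, hb⟩ : ∃ b, p = 2 * b ∨ p = 2 * b + 1 := ⟨p / 2, by omega⟩
  rcases ha with ha | ha <;> rcases hb with hb | hb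
  · exfalso
    subst ha hb
    have : (2 * a) ^ 2 + (2 * b) ^ 2 + 4 * k = 4 * (a ^ 2 + b ^ 2 + k) := by ring
    omega
  · exfalso
    subst ha hb
    have : (2 * a) ^ 2 + (2 * b + 1) ^ 2 + 4 * k = 4 * (a ^ 2 + b ^ 2 + b + k) + 1 := by ring
    omega
  · exfalso
    subst ha hb
    have : (2 * a + 1) ^ 2 + (2 * b) ^ 2 + 4 * k = 4 * (a ^ 2 + a + b ^ 2 + k) + 1 := by ring
    omega
  · omega

lemma G_bdry' {m x p q r : ℕ} (hm : m % 4 = 2) (h2 : ∀ x y : ℕ, x ^ 2 + y ^ 2 ≠ m)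
    (h : (x, p, q, r) ∈ G m) : p + r ≠ q ∧ p ≠ 2 * q := by
  rw [mem_G] at h
  obtain ⟨h1, _, h3, h4, h5⟩ := h
  refine ⟨?_, ?_⟩
  · intro he
    subst he
    exact h2 x (p + 2 * r) (by rw [← h5]; ring)
  · have := two_sq_mod' (x := x) (p := p) (k := q * r) (by rw [h5]; exact hm)
    omega

lemma zag_mem' {m : ℕ} (hm : m % 4 = 2) (h2 : ∀ x y : ℕ, x ^ 2 + y ^ 2 ≠ m) :
    ∀ t ∈ G m, zag t ∈ G m := by
  rintro ⟨x, p, q, r⟩ h
  obtain ⟨b1, b2⟩ := G_bdry' hm h2 h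
  rw [mem_G] at h
  obtain ⟨h1, h2, h3, h4, h5⟩ := h
  unfold zag
  simp only
  split_ifs with c1 c2
  · rw [mem_G]
    obtain ⟨d, rfl⟩ : ∃ d, q = p + r + 1 + d := ⟨q - p - r - 1, by omega⟩
    have e : p + r + 1 + d - p - r = 1 + d := by omega
    rw [e]
    refine ⟨h1, by omega, h4, by omega, ?_⟩
    rw [← h5]; ring
  · rw [mem_G]
    obtain ⟨P', hP⟩ : ∃ P', P' + p = 2 * q := ⟨2 * q - p, by omega⟩
    obtain ⟨R', hR⟩ : ∃ R', R' + q = p + r := ⟨p + r - q, by omega⟩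
    have e1 : 2 * q - p = P' := by omega
    have e2 : p + r - q = R' := by omega
    rw [e1, e2]
    refine ⟨h1, by omega, h3, by omega, ?_⟩
    zify at h5 hP hR ⊢
    linear_combination h5 + ((P' : ℤ) - p + 2 * q) * hP + 4 * q * hR
  · rw [mem_G]
    obtain ⟨d, rfl⟩ : ∃ d, p = 2 * q + 1 + d := ⟨p - 2 * q - 1, by omega⟩
    have e1 : 2 * q + 1 + d - 2 * q = 1 + d := by omega
    have e2 : 2 * q + 1 + d + r - q = q + 1 + d + r := by omega
    rw [e1, e2]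
    refine ⟨h1, by omega, by omega, h3, ?_⟩
    rw [← h5]; ring

lemma zag_zag' {m : ℕ} (hm : m % 4 = 2) (h2 : ∀ x y : ℕ, x ^ 2 + y ^ 2 ≠ m) :
    ∀ t ∈ G m, zag (zag t) = t := by
  rintro ⟨x, p, q, r⟩ h
  obtain ⟨b1, b2⟩ := G_bdry' hm h2 h
  rw [mem_G] at h
  obtain ⟨h1, h2, h3, h4, h5⟩ := h
  unfold zag
  simp only
  split_ifs with c1 c2 c3 c4 c5 c6 c7 c8
  all_goals simp only at *
  all_goals first
    | (exfalso; omega)
    | (simp only [Prod.mk.injEq, true_and]; omega)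
    | (simp only [Prod.mk.injEq, true_and, and_true]; omega)

lemma zag_fix' {m : ℕ} (hm : m % 4 = 2) (h2 : ∀ x y : ℕ, x ^ 2 + y ^ 2 ≠ m) {x p q r : ℕ}
    (h : (x, p, q, r) ∈ G m) : zag (x, p, q, r) = (x, p, q, r) ↔ p = q := by
  obtain ⟨b1, b2⟩ := G_bdry' hm h2 h
  rw [mem_G] at h
  obtain ⟨h1, h2, h3, h4, h5⟩ := h
  unfold zag
  simp only
  split_ifs with c1 c2
  all_goals simp only [Prod.mk.injEq, true_and]
  all_goals omega

lemma G_par {m : ℕ} (hm : m % 4 = 2) (h2 : ∀ x y : ℕ, x ^ 2 + y ^ 2 ≠ m) :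
    (G m).card % 2 = ((G m).filter (fun t => t.2.1 = t.2.2.1)).card % 2 := by
  rw [parity_invol (G m) zag (zag_mem' hm h2) (zag_zag' hm h2)]
  congr 2
  apply Finset.filter_congr
  rintro ⟨x, p, q, r⟩ h
  exact zag_fix' hm h2 h

lemma Hs_odd' {m : ℕ} (hm : m % 4 = 2) :
    ((Hs m).filter (fun t => t.1 % 2 = 1)).card =
      ((G m).filter (fun t => t.2.1 = t.2.2.1)).card := by
  symm
  refine Finset.card_bij (fun t _ => (t.1, t.2.1, t.2.1 + 4 * t.2.2.2)) ?_ ?_ ?_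
  · rintro ⟨x, p, q, r⟩ h
    rw [mem_filter, mem_G] at h
    obtain ⟨⟨h1, h2, h3, h4, h5⟩, h6⟩ := h
    simp only at h6
    subst h6
    show (x, p, p + 4 * r) ∈ _
    rw [mem_filter, mem_Hs]
    have := two_sq_mod' (x := x) (p := p) (k := p * r) (by rw [h5]; exact hm)
    exact ⟨⟨h1, h2, by omega, by rw [← h5]; ring⟩, this.1⟩
  · rintro ⟨x, p, q, r⟩ h ⟨x', p', q', r'⟩ h' he
    rw [mem_filter, mem_G] at h h'
    simp only [Prod.mk.injEq] at h h' he ⊢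
    omega
  · rintro ⟨x, y, z⟩ h
    rw [mem_filter, mem_Hs] at h
    obtain ⟨⟨h1, h2, h3, h4⟩, h5⟩ := h
    simp only at h5
    have hyz : (y * z) % 4 = 1 := by
      obtain ⟨a, rfl⟩ : ∃ a, x = 2 * a + 1 := ⟨x / 2, by omega⟩
      have : (2 * a + 1) ^ 2 = 4 * (a ^ 2 + a) + 1 := by ring
      omega
    have hmod : y % 4 = z % 4 := by
      rw [Nat.mul_mod] at hyz
      have h5 : y % 4 < 4 := Nat.mod_lt _ (by norm_num)
      have h6 : z % 4 < 4 := Nat.mod_lt _ (by norm_num)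
      interval_cases (y % 4) <;> interval_cases (z % 4) <;> simp_all
    obtain ⟨r, hr⟩ : ∃ r, z = y + 4 * r := ⟨(z - y) / 4, by omega⟩
    subst hr
    refine ⟨(x, y, y, r), ?_, rfl⟩
    rw [mem_filter, mem_G]
    exact ⟨⟨h1, h2, h2, by omega, by rw [← h4]; ring⟩, rfl⟩

lemma Cs_odd' {u q s t : ℕ} (hu : u % 2 = 1) (h : (q, s, t) ∈ Cs u) : s % 2 = 1 ∧ t % 2 = 1 := by
  rw [mem_Cs] at h
  obtain ⟨h1, h2, h3, h4⟩ := h
  have hst : (s * t) % 2 = 1 := by omega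
  rw [Nat.mul_mod] at hst
  rcases Nat.mod_two_eq_zero_or_one s with hs | hs <;>
    rcases Nat.mod_two_eq_zero_or_one t with ht | ht <;> simp [hs, ht] at hst ⊢

lemma Hs_even' {u : ℕ} (hu : u % 2 = 1) :
    ((Hs (2 * u)).filter (fun t => ¬ t.1 % 2 = 1)).card = (Cs u).card := by
  symm
  refine Finset.card_bij (fun t _ => if 2 * t.2.1 < t.2.2 then (2 * t.1, 2 * t.2.1, t.2.2) else
    (2 * t.1, t.2.2, 2 * t.2.1)) ?_ ?_ ?_
  · rintro ⟨q, s, t⟩ h
    obtain ⟨o1, o2⟩ := Cs_odd' hu h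
    rw [mem_Cs] at h
    obtain ⟨h1, h2, h3, h4⟩ := h
    show (if 2 * s < t then (2 * q, 2 * s, t) else (2 * q, t, 2 * s)) ∈ _
    split_ifs with c
    · rw [mem_filter, mem_Hs]
      refine ⟨⟨by omega, by omega, c, ?_⟩, ?_⟩
      · rw [← h4]; ring
      · show ¬ (2 * q) % 2 = 1
        omega
    · rw [mem_filter, mem_Hs]
      refine ⟨⟨by omega, by omega, by omega, ?_⟩, ?_⟩
      · rw [← h4]; ring
      · show ¬ (2 * q) % 2 = 1
        omega
  · rintro ⟨q, s, t⟩ h ⟨q', s', t'⟩ h' he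
    obtain ⟨o1, o2⟩ := Cs_odd' hu h
    obtain ⟨o1', o2'⟩ := Cs_odd' hu h'
    simp only at he
    split_ifs at he with c1 c2 c2
    all_goals simp only [Prod.mk.injEq] at he ⊢
    all_goals omega
  · rintro ⟨x, y, z⟩ h
    rw [mem_filter, mem_Hs] at h
    obtain ⟨⟨h1, h2, h3, h4⟩, h5⟩ := h
    simp only at h5
    obtain ⟨q, rfl⟩ : ∃ q, x = 2 * q := ⟨x / 2, by omega⟩
    have h6 : y * z = 2 * (u - 2 * q ^ 2) := by
      have : (2 * q) ^ 2 = 2 * (2 * q ^ 2) := by ring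
      omega
    have h7 : 2 * q ^ 2 < u := by
      have h8 : 0 < y * z := Nat.mul_pos (by omega) (by omega)
      omega
    by_cases hy : y % 2 = 0
    · obtain ⟨s, rfl⟩ : ∃ s, y = 2 * s := ⟨y / 2, by omega⟩
      refine ⟨(q, s, z), ?_, ?_⟩
      · rw [mem_Cs]
        refine ⟨by omega, by omega, by omega, ?_⟩
        have : 2 * s * z = 2 * (s * z) := by ring
        omega
      · simp only
        rw [if_pos h3]
    · have hz : z % 2 = 0 := by
        have h8 : (y * z) % 2 = 0 := by omega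
        rw [Nat.mul_mod, show y % 2 = 1 by omega, one_mul, Nat.mod_mod] at h8
        exact h8
      obtain ⟨s, rfl⟩ : ∃ s, z = 2 * s := ⟨z / 2, by omega⟩
      refine ⟨(q, s, y), ?_, ?_⟩
      · rw [mem_Cs]
        refine ⟨by omega, by omega, by omega, ?_⟩
        have : y * (2 * s) = 2 * (s * y) := by ring
        omega
      · simp only
        rw [if_neg (by omega)]

/-- `x² + 2 q² = u` with `x, q ≥ 1` -/
def B0 (u : ℕ) : ℕ := ((Cs u).filter (fun t => t.2.1 = t.2.2)).card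

lemma Hs_odd_par {u : ℕ} (hu : u % 2 = 1) (h2 : ∀ x y : ℕ, x ^ 2 + y ^ 2 ≠ 2 * u) :
    ((Hs (2 * u)).filter (fun t => t.1 % 2 = 1)).card % 2 = B0 u % 2 := by
  rw [Hs_odd' (by omega), ← G_par (by omega) h2, G_parity', B0, Cs_G]

lemma Hs_card_even' {u : ℕ} (hu : u % 2 = 1) (h2 : ∀ x y : ℕ, x ^ 2 + y ^ 2 ≠ 2 * u) :
    (Hs (2 * u)).card % 2 = 0 := by
  have h1 := Finset.card_filter_add_card_filter_not (s := Hs (2 * u)) (fun t => t.1 % 2 = 1)
  have h3 := Hs_even' hu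
  have h4 := Hs_odd_par hu h2
  have h6 := Cs_parity u
  rw [← B0] at h6
  omega

/-- Eight-fold symmetry. -/
lemma card_eight (T : Finset (ℕ × ℕ × ℕ × ℕ)) (t1 : ∀ t ∈ T, s1 t ∈ T) (t2 : ∀ t ∈ T, s2 t ∈ T)
    (t3 : ∀ t ∈ T, s3 t ∈ T) (n1 : ∀ t ∈ T, ¬ (t.1 = t.2.1 ∧ t.2.2.1 = t.2.2.2))
    (n2 : ∀ t ∈ T, ¬ (t.1 = t.2.1 ∧ t.1 * t.2.1 = t.2.2.1 * t.2.2.2)) :
    ∃ X, T.card = 8 * X + 4 * (T.filter (fun t => t.1 = t.2.1 ∧ t.2.2.1 < t.2.2.2)).card +
      (T.filter (fun t => t.1 * t.2.1 = t.2.2.1 * t.2.2.2)).card := by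
  -- the diagonal
  have hdiag : (T.filter (fun t => t.1 = t.2.1)).card =
      2 * (T.filter (fun t => t.1 = t.2.1 ∧ t.2.2.1 < t.2.2.2)).card := by
    have h1 := split_lt (T.filter (fun t => t.1 = t.2.1)) (fun t => t.2.2.1) (fun t => t.2.2.2)
    have h2 : ((T.filter (fun t => t.1 = t.2.1)).filter (fun t => t.2.2.1 = t.2.2.2)) = ∅ := by
      rw [Finset.filter_eq_empty_iff]
      intro t h he
      rw [mem_filter] at h
      exact n1 t h.1 ⟨h.2, he⟩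
    have hs2 : ∀ t ∈ T.filter (fun t => t.1 = t.2.1), s2 t ∈ T.filter (fun t => t.1 = t.2.1) := by
      intro t ht
      rw [mem_filter] at ht ⊢
      exact ⟨t2 t ht.1, ht.2⟩
    have h3 : ((T.filter (fun t => t.1 = t.2.1)).filter (fun t => t.2.2.1 < t.2.2.2)).card =
        ((T.filter (fun t => t.1 = t.2.1)).filter (fun t => t.2.2.2 < t.2.2.1)).card :=
      card_filter_invol _ s2 hs2 (fun _ _ => rfl) _ _ (fun _ _ => Iff.rfl)
    have h4 : (T.filter (fun t => t.1 = t.2.1)).filter (fun t => t.2.2.1 < t.2.2.2) =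
        T.filter (fun t => t.1 = t.2.1 ∧ t.2.2.1 < t.2.2.2) := by
      rw [Finset.filter_filter]
    rw [h2, Finset.card_empty] at h1
    rw [h4] at h1 h3
    omega
  -- level 1
  have h1 := split_lt T (fun t => t.1 * t.2.1) (fun t => t.2.2.1 * t.2.2.2)
  have h2 : (T.filter (fun t => t.2.2.1 * t.2.2.2 < t.1 * t.2.1)).card =
      (T.filter (fun t => t.1 * t.2.1 < t.2.2.1 * t.2.2.2)).card :=
    card_filter_invol _ s3 t3 (fun _ _ => rfl) _ _ (fun _ _ => Iff.rfl)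
  set L := T.filter (fun t => t.1 * t.2.1 < t.2.2.1 * t.2.2.2) with hL
  -- level 2
  have h3 := split_lt L (fun t => t.1) (fun t => t.2.1)
  have l1 : ∀ t ∈ L, s1 t ∈ L := by
    rintro ⟨a, i, b, j⟩ ht
    rw [hL, mem_filter] at ht ⊢
    refine ⟨t1 _ ht.1, ?_⟩
    show i * a < b * j
    rw [mul_comm i a]; exact ht.2
  have l2 : ∀ t ∈ L, s2 t ∈ L := by
    rintro ⟨a, i, b, j⟩ ht
    rw [hL, mem_filter] at ht ⊢
    refine ⟨t2 _ ht.1, ?_⟩
    show a * i < j * b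
    rw [mul_comm j b]; exact ht.2
  have h4 : (L.filter (fun t => t.2.1 < t.1)).card = (L.filter (fun t => t.1 < t.2.1)).card :=
    card_filter_invol _ s1 l1 (fun _ _ => rfl) _ _ (fun _ _ => Iff.rfl)
  -- level 3
  have h5 := split_lt (L.filter (fun t => t.1 < t.2.1)) (fun t => t.2.2.1) (fun t => t.2.2.2)
  have l3 : ∀ t ∈ L.filter (fun t => t.1 < t.2.1), s2 t ∈ L.filter (fun t => t.1 < t.2.1) := by
    intro t ht
    rw [mem_filter] at ht ⊢
    exact ⟨l2 t ht.1, ht.2⟩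
  have h6 : ((L.filter (fun t => t.1 < t.2.1)).filter (fun t => t.2.2.2 < t.2.2.1)).card =
      ((L.filter (fun t => t.1 < t.2.1)).filter (fun t => t.2.2.1 < t.2.2.2)).card :=
    card_filter_invol _ s2 l3 (fun _ _ => rfl) _ _ (fun _ _ => Iff.rfl)
  -- b = j
  have h7 := split_lt (L.filter (fun t => t.2.2.1 = t.2.2.2)) (fun t => t.1) (fun t => t.2.1)
  have l4 : ∀ t ∈ L.filter (fun t => t.2.2.1 = t.2.2.2),
      s1 t ∈ L.filter (fun t => t.2.2.1 = t.2.2.2) := by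
    intro t ht
    rw [mem_filter] at ht ⊢
    exact ⟨l1 t ht.1, ht.2⟩
  have h8 : ((L.filter (fun t => t.2.2.1 = t.2.2.2)).filter (fun t => t.2.1 < t.1)).card =
      ((L.filter (fun t => t.2.2.1 = t.2.2.2)).filter (fun t => t.1 < t.2.1)).card :=
    card_filter_invol _ s1 l4 (fun _ _ => rfl) _ _ (fun _ _ => Iff.rfl)
  have h9 : ((L.filter (fun t => t.2.2.1 = t.2.2.2)).filter (fun t => t.1 = t.2.1)) = ∅ := by
    rw [Finset.filter_eq_empty_iff]
    intro t h he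
    rw [mem_filter, hL, mem_filter] at h
    exact n1 t h.1.1 ⟨he, h.2⟩
  have h10 : ((L.filter (fun t => t.1 < t.2.1)).filter (fun t => t.2.2.1 = t.2.2.2)).card =
      ((L.filter (fun t => t.2.2.1 = t.2.2.2)).filter (fun t => t.1 < t.2.1)).card := by
    rw [Finset.filter_comm]
  -- the diagonal
  have h11 := split_lt (T.filter (fun t => t.1 = t.2.1)) (fun t => t.1 * t.2.1)
    (fun t => t.2.2.1 * t.2.2.2)
  have h12 : ((T.filter (fun t => t.1 = t.2.1)).filter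
      (fun t => t.1 * t.2.1 = t.2.2.1 * t.2.2.2)) = ∅ := by
    rw [Finset.filter_eq_empty_iff]
    intro t h he
    rw [mem_filter] at h
    exact n2 t h.1 ⟨h.2, he⟩
  have h13 : ((T.filter (fun t => t.1 = t.2.1)).filter
      (fun t => t.1 * t.2.1 < t.2.2.1 * t.2.2.2)).card = (L.filter (fun t => t.1 = t.2.1)).card := by
    rw [hL, Finset.filter_comm]
  have h14 : ((T.filter (fun t => t.1 = t.2.1)).filter
      (fun t => t.2.2.1 * t.2.2.2 < t.1 * t.2.1)).card =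
      (L.filter (fun t => t.2.2.1 = t.2.2.2)).card := by
    rw [hL, Finset.filter_filter, Finset.filter_filter]
    exact card_filter_invol _ s3 t3 (fun _ _ => rfl) _ _ (fun t _ =>
      ⟨fun h => ⟨h.2, h.1⟩, fun h => ⟨h.2, h.1⟩⟩)
  rw [h12, Finset.card_empty] at h11
  rw [h9, Finset.card_empty] at h7
  refine ⟨((L.filter (fun t => t.1 < t.2.1)).filter (fun t => t.2.2.1 < t.2.2.2)).card, ?_⟩
  rw [hdiag] at h11
  omega

end Pool.Agent.Q224.Rk
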