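import Pool.Agent.Q224.Rk.Final

namespace Pool.Agent.Q224.Rk

open Finset Pool.Agent.Q224.Nu

lemma sigma_zmod {v M : ℕ} [NeZero M] (hns : ∀ r, r * r ≠ v) (h0 : v ≠ 0)
    (hdec : ∀ y z : ZMod M, y * z = (v : ZMod M) → y + z = 0) : M ∣ ∑ d ∈ v.divisors, d := by
  have key : ∑ d ∈ v.divisors, (d : ZMod M) = 0 := by
    apply Finset.sum_involution (fun d _ => v / d)
    · intro d hd
      rw [Nat.mem_divisors] at hd
      obtain ⟨⟨z, hz⟩, _⟩ := hd
      have hd0 : 0 < d := by
        rcases Nat.eq_zero_or_pos d with h | h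
        · subst h; simp at hz; exact absurd hz h0
        · exact h
      have e : v / d = z := by rw [hz]; exact Nat.mul_div_cancel_left z hd0
      rw [e]
      apply hdec
      rw [hz]; push_cast; ring
    · intro d hd _ he
      rw [Nat.mem_divisors] at hd
      have h1 := Nat.div_mul_cancel hd.1
      rw [he] at h1
      exact hns d h1
    · intro d hd
      rw [Nat.mem_divisors] at hd ⊢
      exact ⟨Nat.div_dvd_of_dvd hd.1, hd.2⟩
    · intro d hd
      rw [Nat.mem_divisors] at hd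
      exact Nat.div_div_self hd.1 hd.2
  have key2 : ((∑ d ∈ v.divisors, d : ℕ) : ZMod M) = 0 := by push_cast; exact key
  exact (ZMod.natCast_eq_zero_iff _ M).1 key2

lemma cast_mod (v M r : ℕ) (h : v % M = r) : (v : ZMod M) = (r : ZMod M) := by
  rw [← h, ZMod.natCast_mod]

lemma sigma_four {v : ℕ} (hv : v % 4 = 3) : 4 ∣ ∑ d ∈ v.divisors, d := by
  apply sigma_zmod (nonsq_of_mod hv) (by omega)
  rw [cast_mod v 4 3 hv]
  decide

/-- The sum of divisors as a sum over the divisors below the root. -/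
lemma sum_pairs {u : ℕ} (hns : ∀ r, r * r ≠ u) (h0 : u ≠ 0) :
    ∑ d ∈ u.divisors, d = ∑ y ∈ u.divisors.filter (fun y => y * y < u), (y + u / y) := by
  rw [← Finset.sum_filter_add_sum_filter_not u.divisors (fun y => y * y < u),
    Finset.sum_add_distrib]
  congr 1
  symm
  refine Finset.sum_bij (fun y _ => u / y) ?_ ?_ ?_ (fun _ _ => rfl)
  · intro y hy
    rw [mem_filter, Nat.mem_divisors] at hy ⊢
    obtain ⟨⟨⟨z, hz⟩, _⟩, h3⟩ := hy
    have hy0 : 0 < y := by
      rcases Nat.eq_zero_or_pos y with h | h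
      · subst h; simp at hz; exact absurd hz h0
      · exact h
    have e : u / y = z := by rw [hz]; exact Nat.mul_div_cancel_left z hy0
    rw [e]
    refine ⟨⟨⟨y, by rw [hz]; ring⟩, h0⟩, ?_⟩
    rw [hz] at h3 ⊢
    have h6 : y < z := Nat.lt_of_mul_lt_mul_left h3
    have : y * z ≤ z * z := Nat.mul_le_mul_right z h6.le
    omega
  · intro y hy y' hy' he
    rw [mem_filter, Nat.mem_divisors] at hy hy'
    have a1 := Nat.div_mul_cancel hy.1.1
    have a2 := Nat.div_mul_cancel hy'.1.1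
    rw [he] at a1
    have hpos : 0 < u / y' := by
      rcases Nat.eq_zero_or_pos (u / y') with h | h
      · rw [h] at a2; simp at a2; exact absurd a2.symm h0
      · exact h
    exact Nat.eq_of_mul_eq_mul_left hpos (by rw [a1, a2])
  · intro z hz
    rw [mem_filter, Nat.mem_divisors] at hz
    obtain ⟨⟨⟨y, hy⟩, _⟩, h3⟩ := hz
    have hz0 : 0 < z := by
      rcases Nat.eq_zero_or_pos z with h | h
      · subst h; simp at hy; exact absurd hy h0
      · exact h
    have hy0 : 0 < y := by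
      rcases Nat.eq_zero_or_pos y with h | h
      · subst h; simp at hy; exact absurd hy h0
      · exact h
    refine ⟨y, ?_, ?_⟩
    · rw [mem_filter, Nat.mem_divisors]
      refine ⟨⟨⟨z, by rw [hy]; ring⟩, h0⟩, ?_⟩
      have h4 : z * z ≠ u := hns z
      have h5 : u < z * z := by omega
      rw [hy] at h5 ⊢
      have h6 : y < z := Nat.lt_of_mul_lt_mul_left h5
      exact Nat.mul_lt_mul_of_pos_right h6 hy0
    · rw [hy]; exact Nat.mul_div_cancel z hy0

lemma sigma_eight {u : ℕ} (hu : u % 4 = 3)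
    (hD : (u.divisors.filter (fun y => y * y < u)).card % 2 = 0) :
    (∑ d ∈ u.divisors, d) % 8 = 0 := by
  rw [sum_pairs (nonsq_of_mod hu) (by omega)]
  have key : ∀ c : ZMod 8, (∀ y z : ZMod 8, y * z = (u : ZMod 8) → y + z = c) → c + c = 0 →
      ((∑ y ∈ u.divisors.filter (fun y => y * y < u), (y + u / y) : ℕ) : ZMod 8) = 0 := by
    intro c hc hcc
    push_cast
    have h1 : ∑ y ∈ u.divisors.filter (fun y => y * y < u), ((y : ZMod 8) + ((u / y : ℕ) : ZMod 8)) =
        ∑ y ∈ u.divisors.filter (fun y => y * y < u), c := by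
      apply Finset.sum_congr rfl
      intro y hy
      rw [mem_filter, Nat.mem_divisors] at hy
      apply hc
      rw [← Nat.cast_mul, Nat.mul_div_cancel' hy.1.1]
    rw [h1, Finset.sum_const]
    obtain ⟨t, ht⟩ : ∃ t, (u.divisors.filter (fun y => y * y < u)).card = 2 * t :=
      ⟨(u.divisors.filter (fun y => y * y < u)).card / 2, by omega⟩
    rw [ht, mul_comm, mul_smul, two_smul, hcc, smul_zero]
  have h8 : u % 8 = 3 ∨ u % 8 = 7 := by omega
  have : ((∑ y ∈ u.divisors.filter (fun y => y * y < u), (y + u / y) : ℕ) : ZMod 8) = 0 := by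
    rcases h8 with h8 | h8
    · apply key 4
      · rw [cast_mod u 8 3 h8]; decide
      · decide
    · apply key 0
      · rw [cast_mod u 8 7 h8]; decide
      · decide
  have := (ZMod.natCast_eq_zero_iff _ 8).1 this
  omega

lemma sigma_eight' {u : ℕ} (hu : u % 4 = 1) (h2 : ∀ x y : ℕ, x ^ 2 + y ^ 2 ≠ 2 * u) :
    (∑ d ∈ u.divisors, d) % 8 = 0 := by
  have h3 : ¬ ∃ x y : ℕ, 2 * u = x ^ 2 + y ^ 2 := by
    rintro ⟨x, y, h⟩; exact h2 x y h.symm
  rw [Nat.eq_sq_add_sq_iff] at h3
  push Not at h3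
  obtain ⟨q, hq, hq4, hodd⟩ := h3
  have hqp : q.Prime := Nat.prime_of_mem_primeFactors hq
  have : Fact q.Prime := ⟨hqp⟩
  have hv : padicValNat q (2 * u) = padicValNat q u := by
    rw [padicValNat.mul (by norm_num) (by omega)]
    have : padicValNat q 2 = 0 := by
      apply padicValNat.eq_zero_of_not_dvd
      intro hd
      have := Nat.le_of_dvd (by norm_num) hd
      have := hqp.two_le
      have : q = 2 := by omega
      omega
    rw [this, zero_add]
  rw [hv] at hodd
  obtain ⟨e, w, hqw, he⟩ : ∃ e w, ¬ q ∣ w ∧ u = q ^ e * w :=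
    Nat.exists_eq_pow_mul_and_not_dvd (by omega) q hqp.ne_one
  have hval : padicValNat q u = e := by
    have hw0 : w ≠ 0 := by rintro rfl; simp at hqw
    rw [he, padicValNat.mul (pow_ne_zero _ hqp.ne_zero) hw0, padicValNat.prime_pow,
      padicValNat.eq_zero_of_not_dvd hqw, add_zero]
  rw [hval] at hodd
  have hqe : (q ^ e) % 4 = 3 := by
    rw [Nat.not_even_iff_odd] at hodd
    obtain ⟨t, rfl⟩ := hodd
    have h1 : q ^ 2 % 4 = 1 := by rw [Nat.pow_mod, hq4]
    rw [pow_succ, pow_mul, Nat.mul_mod, Nat.pow_mod, h1, one_pow, hq4]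
    norm_num
  have hw : w % 4 = 3 := by
    rw [he, Nat.mul_mod, hqe] at hu
    have : w % 4 < 4 := Nat.mod_lt _ (by norm_num)
    omega
  have hcop : Nat.Coprime (q ^ e) w :=
    Nat.Coprime.pow_left _ ((Nat.Prime.coprime_iff_not_dvd hqp).2 hqw)
  rw [he, Nat.Coprime.sum_divisors_mul hcop]
  obtain ⟨s, hs⟩ := sigma_four hqe
  obtain ⟨t, ht⟩ := sigma_four hw
  rw [hs, ht]
  have : 4 * s * (4 * t) = 8 * (2 * (s * t)) := by ring
  omega

/-- The pointwise implication for `m = 2 u`, `u` odd, `m` not a sum of two squares. -/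
theorem nu_two_of_nu_three {u : ℕ} (hu : u % 2 = 1) (h2 : ∀ x y : ℕ, x ^ 2 + y ^ 2 ≠ 2 * u)
    (h3 : 2 ∣ nu 3 (2 * u)) : 4 ∣ nu 2 (2 * u) := by
  have hs : (∑ d ∈ u.divisors, d) % 8 = 0 := by
    rcases (by omega : u % 4 = 1 ∨ u % 4 = 3) with h | h
    · exact sigma_eight' h h2
    · apply sigma_eight h
      have := nu_three_parity h
      omega
  have hns : ∀ r, r * r ≠ u := fun r hr => h2 r r (by rw [← hr]; ring)
  have hd := card_divisors_nonsq hns (by omega)
  set D := (u.divisors.filter (fun y => y * y < u)).card with hD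
  obtain ⟨X', e7⟩ := nu_eight hu h2
  have hDD : (D * D) % 2 = D % 2 := by
    rcases Nat.mod_two_eq_zero_or_one D with h | h <;> simp [Nat.mul_mod, h]
  have hdd : u.divisors.card * u.divisors.card = 4 * (D * D) := by rw [hd]; ring
  rw [hdd] at e7
  rw [nu_two]
  omega

/-- Q1 for the progressions inside `4ℤ + 2` that avoid sums of two squares. -/
theorem prog_impl {A B : ℕ} (hm : ∀ n : ℕ, (A * n + B) % 4 = 2)
    (h2 : ∀ n x y : ℕ, x ^ 2 + y ^ 2 ≠ A * n + B) (h3 : ∀ n : ℕ, 2 ∣ nu 3 (A * n + B)) :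
    ∀ n : ℕ, 4 ∣ nu 2 (A * n + B) := by
  intro n
  obtain ⟨u, hu⟩ : ∃ u, A * n + B = 2 * u := ⟨(A * n + B) / 2, by have := hm n; omega⟩
  have h1 := hm n
  have h4 := h2 n
  have h5 := h3 n
  rw [hu] at h1 h4 h5 ⊢
  exact nu_two_of_nu_three (by omega) h4 h5

end Pool.Agent.Q224.Rk
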